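import Pool.Agent.Helper89.Vol5.Goals

/-! # MP_cd13d2_co, packet V58-D1 -/

set_option autoImplicit false

namespace Pool.Agent.Helper33.Vol5.PkD1

open Pool.Agent.Helper89.Vol5 Pool.Agent.Helper86.Poly

/-- the first six rows of the transposed matrix -/
noncomputable def R (x : Fin 8 → E 5) : Fin 8 → Fin 8 → ℝ :=
  ![fun _ => 1, fun k => x k 0, fun k => x k 1, fun k => x k 2, fun k => x k 3, fun k => x k 4,
    0, 0]

/-- the transposed matrix -/
noncomputable def M (x : Fin 8 → E 5) (u v : Fin 8 → ℝ) : Fin 8 → Fin 8 → ℝ :=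
  Function.update (Function.update (R x) 6 u) 7 v

theorem M7 (x : Fin 8 → E 5) (u v : Fin 8 → ℝ) : M x u v 7 = v := by
  unfold M
  rw [Function.update_self]

theorem M6 (x : Fin 8 → E 5) (u v : Fin 8 → ℝ) : M x u v 6 = u := by
  unfold M
  rw [Function.update_of_ne (by decide), Function.update_self]

theorem Mo (x : Fin 8 → E 5) (u v : Fin 8 → ℝ) (i : Fin 8) (h6 : i ≠ 6) (h7 : i ≠ 7) :
    M x u v i = R x i := by
  unfold M
  rw [Function.update_of_ne h7, Function.update_of_ne h6]

theorem W_eq (x : Fin 8 → E 5) (u v : Fin 8 → ℝ) : W x u v = Matrix.det (Matrix.of (M x u v)) := by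
  unfold W
  rw [← Matrix.det_transpose]
  congr 1
  ext i j
  show (![1, x j 0, x j 1, x j 2, x j 3, x j 4, u j, v j] : Fin 8 → ℝ) i = M x u v i j
  by_cases h7 : i = 7
  · rw [h7, M7]
    rfl
  · by_cases h6 : i = 6
    · rw [h6, M6]
      rfl
    · rw [Mo x u v i h6 h7]
      fin_cases i
      · rfl
      · rfl
      · rfl
      · rfl
      · rfl
      · rfl
      · exact absurd rfl h6
      · exact absurd rfl h7

theorem upd_swap {α : Type*} (m : Fin 8 → α) (u v : α) :
    (Function.update (Function.update m 6 u) 7 v) ∘ Equiv.swap (6 : Fin 8) 7 =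
      Function.update (Function.update m 6 v) 7 u := by
  funext k
  show Function.update (Function.update m 6 u) 7 v (Equiv.swap (6 : Fin 8) 7 k) = _
  by_cases h7 : k = 7
  · rw [h7, Equiv.swap_apply_right, Function.update_of_ne (by decide), Function.update_self,
      Function.update_self]
  · by_cases h6 : k = 6
    · rw [h6, Equiv.swap_apply_left, Function.update_self, Function.update_of_ne (by decide),
        Function.update_self]
    · rw [Equiv.swap_apply_of_ne_of_ne h6 h7, Function.update_of_ne h7, Function.update_of_ne h6,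
        Function.update_of_ne h7, Function.update_of_ne h6]

theorem W_swap (x : Fin 8 → E 5) (u v : Fin 8 → ℝ) : W x u v = -W x v u := by
  rw [W_eq, W_eq]
  have h := Matrix.det_permute (Equiv.swap (6 : Fin 8) 7) (Matrix.of (M x v u))
  have h2 : (Matrix.of (M x v u)).submatrix (Equiv.swap (6 : Fin 8) 7) id = Matrix.of (M x u v) := by
    have := upd_swap (R x) v u
    ext i j
    exact congrFun (congrFun this i) j
  rw [h2, Equiv.Perm.sign_swap (show (6 : Fin 8) ≠ 7 by decide)] at h
  rw [h]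
  simp

theorem W_eq2 (x : Fin 8 → E 5) (u v : Fin 8 → ℝ) :
    W x u v = Matrix.det ((Matrix.of (Function.update (R x) 6 u)).updateRow 7 v) := by
  rw [W_eq]
  congr 1

theorem W_isLin (x : Fin 8 → E 5) (u : Fin 8 → ℝ) : IsLinearMap ℝ (fun v => W x u v) where
  map_add a b := by
    rw [W_eq2, W_eq2, W_eq2, Matrix.det_updateRow_add]
  map_smul c a := by
    rw [W_eq2, W_eq2, Matrix.det_updateRow_smul, smul_eq_mul]

theorem W_lin (x : Fin 8 → E 5) (u c : Fin 8 → ℝ) :
    ∑ j, W x u (Pi.single j 1) * c j = W x u c := by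
  have hc : c = ∑ j, c j • (Pi.single j 1 : Fin 8 → ℝ) := by
    funext k
    simp [Finset.sum_apply, Pi.single_apply]
  obtain ⟨L, hL⟩ : ∃ L : (Fin 8 → ℝ) →ₗ[ℝ] ℝ, ∀ v, L v = W x u v :=
    ⟨IsLinearMap.mk' _ (W_isLin x u), fun v => IsLinearMap.mk'_apply _ v⟩
  rw [← hL c]
  conv_rhs => rw [hc, map_sum]
  refine Finset.sum_congr rfl fun j _ => ?_
  rw [map_smul, hL, smul_eq_mul, mul_comm]

theorem Dt_eq (x : Fin 8 → E 5) (i j : Fin 8) :
    Dt x i j = W x (Pi.single i 1) (Pi.single j 1) := rfl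

theorem W_zero (x : Fin 8 → E 5) (u v : Fin 8 → ℝ) (i : Fin 8) (h6 : i ≠ 6) (h7 : i ≠ 7)
    (h : R x i = v) : W x u v = 0 := by
  rw [W_eq]
  refine Matrix.det_zero_of_row_eq h7 ?_
  show M x u v i = M x u v 7
  rw [Mo x u v i h6 h7, M7, h]

theorem thm : G_D1 := by
  intro x
  refine ⟨fun i j => W_swap x _ _, fun i => ?_, fun i m => ?_⟩
  · have h := W_lin x (Pi.single i 1) (fun _ => 1)
    simp only [mul_one] at h
    simp only [Dt_eq]
    rw [h]
    exact W_zero x _ _ 0 (by decide) (by decide) rfl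
  · simp only [Dt_eq]
    rw [W_lin x (Pi.single i 1) (fun j => x j m)]
    fin_cases m
    · exact W_zero x _ _ 1 (by decide) (by decide) rfl
    · exact W_zero x _ _ 2 (by decide) (by decide) rfl
    · exact W_zero x _ _ 3 (by decide) (by decide) rfl
    · exact W_zero x _ _ 4 (by decide) (by decide) rfl
    · exact W_zero x _ _ 5 (by decide) (by decide) rfl

end Pool.Agent.Helper33.Vol5.PkD1
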